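import Pool.Agent.Lib.MP_ccda7a_co.Arc4

set_option autoImplicit false

namespace Pool.Agent.Results.MP_ccda7a_co.CircularArc

open Pool.Agent.MP_ccda7a_co

/-- Every circular-arc graph without an odd K5 is 4-colourable. The arc of the vertex `v` is the
image of the interval `[a v, b v]` in the circle `ℝ/ℤ`; two different vertices are adjacent if
and only if their arcs have a common point. The odd K5 is described exactly as in the frozen
statement of the problem. -/
theorem result :
    ∀ (V : Type) [Fintype V] (G : SimpleGraph V) (a b : V → ℝ), (∀ v, a v ≤ b v) →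
      (∀ u v, G.Adj u v ↔ u ≠ v ∧ ∃ x y : ℝ, a u ≤ x ∧ x ≤ b u ∧ a v ≤ y ∧ y ≤ b v ∧
        ∃ m : ℤ, x - y = m) →
      (¬ ∃ (f : Fin 5 → Set V) (T : Fin 5 → SimpleGraph V) (e : Fin 5 → Fin 5 → V) (c : V → Bool),
          (∀ i j, i ≠ j → Disjoint (f i) (f j)) ∧
          (∀ i, T i ≤ G) ∧
          (∀ i u v, (T i).Adj u v → u ∈ f i ∧ v ∈ f i ∧ c u ≠ c v) ∧
          (∀ i, ((T i).induce (f i)).IsTree) ∧
          (∀ i j, i ≠ j → e i j ∈ f i ∧ G.Adj (e i j) (e j i) ∧ c (e i j) = c (e j i))) →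
      G.Colorable 4 := by
  classical
  intro V _ G a b hab hadj hno
  have hG : G = AG a b := by
    ext u v
    rw [hadj]
    constructor
    · rintro ⟨huv, x, y, h1, h2, h3, h4, m, hm⟩
      exact ⟨huv, x, ⟨0, by push_cast; linarith, by push_cast; linarith⟩,
        ⟨-m, by push_cast; linarith, by push_cast; linarith⟩⟩
    · rintro ⟨huv, z, ⟨m, h1, h2⟩, ⟨n, h3, h4⟩⟩
      exact ⟨huv, z + m, z + n, h1, h2, h3, h4, m - n, by push_cast; ring⟩
  by_contra hcol
  apply hno
  have hnc : ∀ φ : V → Fin 4, ¬ IsCol (restr (AG a b) ((Finset.univ : Finset V) : Set V)) ∅ φ := by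
    intro φ h
    apply hcol
    refine ⟨SimpleGraph.Coloring.mk φ (fun {u v} huv => ?_)⟩
    rw [hG] at huv
    exact h u v (by simp) (by simp) ⟨huv, by simp, by simp⟩
  have hodd := arcs_main (Finset.univ : Finset V).card a b Finset.univ rfl hab hnc
  rw [hG]
  exact hodd.mono (restr_le _ _)

end Pool.Agent.Results.MP_ccda7a_co.CircularArc
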