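import Pool.Agent.Lib.MP_ccda7a_co.Bfs
import Pool.Agent.Lib.MP_ccda7a_co.Four

set_option autoImplicit false

namespace Pool.Agent.Results.MP_ccda7a_co.ClawFree

open Pool.Agent.MP_ccda7a_co

/-- Every finite claw-free graph `G` is 4-colourable or contains an odd K5 as a subgraph. The
odd K5 is described exactly as in the frozen statement of the problem (the first five clauses);
moreover it can be chosen such that four of its five trees are single vertices (last clause).
In particular the question has a positive answer for claw-free graphs. -/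
theorem result :
    ∀ (V : Type) [Fintype V] (G : SimpleGraph V),
      (∀ x a b c, G.Adj x a → G.Adj x b → G.Adj x c → a ≠ b → a ≠ c → b ≠ c →
        G.Adj a b ∨ G.Adj a c ∨ G.Adj b c) →
      (¬ ∃ (f : Fin 5 → Set V) (T : Fin 5 → SimpleGraph V) (e : Fin 5 → Fin 5 → V) (c : V → Bool),
          (∀ i j, i ≠ j → Disjoint (f i) (f j)) ∧
          (∀ i, T i ≤ G) ∧
          (∀ i u v, (T i).Adj u v → u ∈ f i ∧ v ∈ f i ∧ c u ≠ c v) ∧
          (∀ i, ((T i).induce (f i)).IsTree) ∧
          (∀ i j, i ≠ j → e i j ∈ f i ∧ G.Adj (e i j) (e j i) ∧ c (e i j) = c (e j i)) ∧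
          (∀ i, i ≠ 4 → ∃ v, f i = {v})) →
      G.Colorable 4 := by
  classical
  intro V _ G hcf0 hno
  by_contra hG
  apply hno
  have hcf : ClawFree G := hcf0
  obtain ⟨W, hc⟩ := exists_crit G hG
  apply HasOddK5.mono (restr_le G W)
  have hcf' : ClawFree (restr G W) := hcf.restr W
  by_cases h4 : NoK4 (restr G W)
  · exfalso
    have hd : Deg4 (restr G W) := by
      intro x N hN
      by_contra hcon
      push Not at hcon
      obtain ⟨u, h1, h2, h3, h5⟩ := nbr_struct hcf' h4 x
        (Finset.univ.filter (fun y => (restr G W).Adj x y)) (by simp)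
        (le_trans hcon (Finset.card_le_card (fun y hy => by simpa using hN y hy)))
      exact five_red hc hcf' h4 x (hc.inW _ _ ((h2 (u 0)).2 ⟨0, rfl⟩)) u h1 h2 h3 h5
    exact four_false hc hcf' h4 hd
  · unfold NoK4 at h4
    push Not at h4
    obtain ⟨a, b, c, d, hab, hac, had, hbc, hbd, hcd, -⟩ := h4
    refine k4_case hc hcf' ![a, b, c, d] ?_
    intro i j hij
    fin_cases i <;> fin_cases j
    · exact absurd rfl hij
    · exact hab
    · exact hac
    · exact had
    · exact hab.symm
    · exact absurd rfl hij
    · exact hbc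
    · exact hbd
    · exact hac.symm
    · exact hbc.symm
    · exact absurd rfl hij
    · exact hcd
    · exact had.symm
    · exact hbd.symm
    · exact hcd.symm
    · exact absurd rfl hij

end Pool.Agent.Results.MP_ccda7a_co.ClawFree
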