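import Pool.Agent.Lib.MP_ccda7a_co.Odd3

set_option autoImplicit false

namespace Pool.Agent.Results.MP_ccda7a_co.CliqueReduction

open Pool.Agent.MP_ccda7a_co

/-- Every counterexample to the odd Hadwiger conjecture for `K_{m+1}` yields, on the same vertex
set, a counterexample without complete subgraphs on `m` vertices (for `m = 4`: a counterexample
to Gerards' conjecture yields one without `K_4`), and every odd-`K_t` of the new graph gives an
odd-`K_t` of the old one. -/
theorem result :
    ∀ (m : ℕ), 2 ≤ m → ∀ (V : Type) [Finite V] (G : SimpleGraph V),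
      ¬ OddK (m + 1) G → ¬ G.Colorable m →
      ∃ G' : SimpleGraph V, G'.CliqueFree m ∧ ¬ G'.Colorable m ∧ ¬ OddK (m + 1) G' ∧
        ∀ t, 2 ≤ t → OddK t G' → OddK t G := by
  classical
  intro m hm V _ G hodd hcol
  have := Fintype.ofFinite V
  have hnc : ∀ φ : V → Fin m, ¬ PCol G ∅ φ := by
    intro φ h
    exact hcol ⟨SimpleGraph.Coloring.mk φ (fun {u v} huv => h u v (by simp) (by simp) huv)⟩
  obtain ⟨G', h1, h2, h3⟩ := odd_reduction m hm _ Finset.univ rfl G
    (fun u v _ => Finset.mem_univ u) hodd hnc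
  refine ⟨G', h1, ?_, fun h => hodd (h3 _ (by omega) h), h3⟩
  rintro ⟨C⟩
  exact h2 C (fun u v _ _ huv => C.valid huv)

end Pool.Agent.Results.MP_ccda7a_co.CliqueReduction
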